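import Pool.Agent.V11315.SS5

/-!
# SparseStack matrices of bounded sparsity are not oblivious subspace injections

Definitions (files `Pool/Agent/V11315/SS1.lean`, `SS4.lean`, `SS5.lean`):

* `prob E`: the probability of the event `E` for the uniform distribution on a finite type;
* `Sample n ζ b`: the data of a SparseStack matrix with `n` rows and `ζ` blocks of length `b`, that is the positions
  `ω.1 i j : Fin b` and the signs `ω.2 i j : Bool` for all the rows `i` and blocks `j`; the uniform distribution on
  this finite type makes all the positions and signs independent and uniform;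
* `stack s ρ`: the matrix with rows `i` and columns `(j, c)` (block `j`, position `c`), whose entry is
  `± 1 / √ζ` (the sign is that of `ρ i j`) if `s i j = c`, and `0` otherwise;
* `InjectiveOn α V M`: `α * ‖x‖ ^ 2 ≤ ‖Mᵀ x‖ ^ 2` for all `x` in the subspace `V`.
-/

set_option autoImplicit false

namespace Pool.Agent.Results.MP_59a663_pr.NoInjection

open Pool.Agent.V11315.SS

/-- Let the bounds `C₁` for the sparsity and `C₂ r` for the number of the columns, the parameter `α > 0` and the
failure probability `δ < 1` be given. For all sufficiently large `r`, all `n ≥ r`, all `ζ ≤ C₁` and all block lengths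
`b` with `b ζ ≤ C₂ r` there is a subspace `V` of dimension `r` of `ℝ ^ n` for which the random SparseStack matrix is
injective on `V` with parameter `α` with probability less than `1 - δ`. -/
theorem result (C₁ : ℕ) (C₂ α δ : ℝ) (hα : 0 < α) (hδ : δ < 1) :
    ∃ r₀ : ℕ, ∀ r n ζ b : ℕ, r₀ ≤ r → r ≤ n → 1 ≤ ζ → ζ ≤ C₁ → 1 ≤ b → (b : ℝ) * ζ ≤ C₂ * r →
      ∃ V : Submodule ℝ (Fin n → ℝ), Module.finrank ℝ V = r ∧
        prob (fun ω : Sample n ζ b => InjectiveOn α V (stack ω.1 ω.2)) < 1 - δ :=
  main C₁ C₂ α δ hα hδ

end Pool.Agent.Results.MP_59a663_pr.NoInjection
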